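import Pool.Agent.TH403.IPP.Rate

set_option autoImplicit false

/-!
The rate of sequential `k`-IPP codes over an alphabet with more than `k` symbols is positive.
-/

namespace Pool.Agent.TH403.IPP

open Finset Filter Topology Pool.Agent.H230R2.Seq Pool.Agent.H230R2.IPP

lemma log_div_tendsto : Tendsto (fun ℓ : ℕ => Real.log ((ℓ : ℝ) + 1) / (ℓ : ℝ)) atTop (𝓝 0) := by
  have h1 : Tendsto (fun x : ℝ => Real.log x / x) atTop (𝓝 0) :=
    Real.isLittleO_log_id_atTop.tendsto_div_nhds_zero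
  have h2 : Tendsto (fun ℓ : ℕ => (ℓ : ℝ) + 1) atTop atTop :=
    tendsto_atTop_add_const_right _ _ tendsto_natCast_atTop_atTop
  have h3 : Tendsto (fun ℓ : ℕ => 2 * (Real.log ((ℓ : ℝ) + 1) / ((ℓ : ℝ) + 1))) atTop (𝓝 0) := by
    have := (h1.comp h2).const_mul 2
    simpa using this
  refine squeeze_zero' ?_ ?_ h3
  · exact Eventually.of_forall (fun ℓ => div_nonneg (Real.log_nonneg (by
      have : (0 : ℝ) ≤ ℓ := Nat.cast_nonneg _
      linarith)) (Nat.cast_nonneg _))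
  · filter_upwards [eventually_ge_atTop 1] with ℓ hℓ
    have hℓr : (1 : ℝ) ≤ ℓ := by exact_mod_cast hℓ
    have h4 : 0 ≤ Real.log ((ℓ : ℝ) + 1) := Real.log_nonneg (by linarith)
    rw [← mul_div_assoc, div_le_div_iff₀ (by linarith) (by linarith)]
    nlinarith

theorem positive (k q : ℕ) (hk : 1 ≤ k) (hqk : k < q) :
    1 / ((k : ℝ) ^ 2 * (k + 1) * q ^ (k ^ 2 + k) * Real.log q) ≤
      liminf (fun ℓ => rate q ℓ k) atTop := by
  have hq2 : 2 ≤ q := by omega
  have hq1 : (1 : ℝ) < q := by exact_mod_cast hq2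
  have hq0 : (0 : ℝ) < q := by linarith
  have hkr : (0 : ℝ) < k := by exact_mod_cast hk
  have hlq : 0 < Real.log q := Real.log_pos hq1
  obtain ⟨m, hm⟩ : ∃ m, m = k + k * k := ⟨_, rfl⟩
  have hm1 : 1 ≤ m := by omega
  have hmr : (0 : ℝ) < m := by exact_mod_cast hm1
  set D : ℝ := (q : ℝ) ^ m with hD
  have hDpos : 0 < D := by rw [hD]; positivity
  have hD1 : 1 ≤ D := by rw [hD]; exact one_le_pow₀ hq1.le
  set y : ℕ → ℝ := fun ℓ => ((ℓ / k - 1) / D - Real.log ((ℓ : ℝ) + 1) - m * Real.log 2 - 1) / m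
    with hy
  have hylim : Tendsto (fun ℓ : ℕ => y ℓ / (ℓ : ℝ)) atTop (𝓝 (1 / (k * D * m))) := by
    have h1 : Tendsto (fun ℓ : ℕ => 1 / (k * D * m) - (1 / m) *
        (Real.log ((ℓ : ℝ) + 1) / (ℓ : ℝ)) - ((1 / D + m * Real.log 2 + 1) / m) / (ℓ : ℝ)) atTop
        (𝓝 (1 / (k * D * m) - (1 / m) * 0 - 0)) :=
      (tendsto_const_nhds.sub (log_div_tendsto.const_mul _)).sub
        (tendsto_const_nhds.div_atTop tendsto_natCast_atTop_atTop)
    rw [mul_zero, sub_zero, sub_zero] at h1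
    refine h1.congr' ?_
    filter_upwards [eventually_ge_atTop 1] with ℓ hℓ
    have hℓr : (0 : ℝ) < ℓ := by exact_mod_cast hℓ
    rw [hy]
    field_simp
    ring
  have hcpos : 0 < 1 / (k * D * m) := by positivity
  have hyinf : Tendsto y atTop atTop := by
    have h1 : Tendsto (fun ℓ : ℕ => y ℓ / (ℓ : ℝ) * (ℓ : ℝ)) atTop atTop :=
      hylim.pos_mul_atTop hcpos tendsto_natCast_atTop_atTop
    refine h1.congr' ?_
    filter_upwards [eventually_ge_atTop 1] with ℓ hℓ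
    have hℓr : (0 : ℝ) < ℓ := by exact_mod_cast hℓ
    field_simp
  have hf : Tendsto (fun ℓ : ℕ => (y ℓ / (ℓ : ℝ)) / Real.log q -
      (Real.log 2 / Real.log q) / (ℓ : ℝ)) atTop
      (𝓝 (1 / (k * D * m) / Real.log q - 0)) :=
    (hylim.div_const _).sub (tendsto_const_nhds.div_atTop tendsto_natCast_atTop_atTop)
  have hfin : (1 / (k * D * m) / Real.log q - 0 : ℝ) =
      1 / ((k : ℝ) ^ 2 * (k + 1) * q ^ (k ^ 2 + k) * Real.log q) := by
    have h1 : (m : ℝ) = k + k * k := by rw [hm]; push_cast; ring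
    have h2 : k ^ 2 + k = m := by rw [hm]; ring
    rw [h2, sub_zero, div_div, ← hD, h1]
    congr 1
    ring
  rw [← hfin]
  refine le_liminf hq2 hf ?_
  filter_upwards [eventually_ge_atTop k, eventually_ge_atTop 1,
    hyinf.eventually_ge_atTop (Real.log (m + 2))] with ℓ hℓk hℓ1 hyℓ
  have hℓr : (0 : ℝ) < ℓ := by exact_mod_cast hℓ1
  have hE : (m : ℝ) + 2 ≤ Real.exp (y ℓ) := by
    rw [← Real.log_le_iff_le_exp (by positivity)]
    exact hyℓ
  set n := ⌊Real.exp (y ℓ)⌋₊ with hn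
  have hn1 : (n : ℝ) ≤ Real.exp (y ℓ) := Nat.floor_le (Real.exp_pos _).le
  have hn2 : Real.exp (y ℓ) < n + 1 := Nat.lt_floor_add_one _
  have hmn : m ≤ n := by
    have : (m : ℝ) < n := by linarith
    exact_mod_cast this.le
  set l := ℓ / k with hl
  have hl1 : 1 ≤ l := by
    rw [hl, Nat.one_le_div_iff (by omega)]
    exact hℓk
  have hkl : k * l ≤ ℓ := Nat.mul_div_le _ _
  have hll : l ≤ ℓ := by nlinarith
  have hlr : (ℓ : ℝ) / k - 1 ≤ l := by
    have h1 := Nat.lt_div_mul_add (a := ℓ) (show 0 < k by omega)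
    have h2 : (ℓ : ℝ) < l * k + k := by exact_mod_cast h1
    rw [sub_le_iff_le_add, div_le_iff₀ hkr]
    linarith
  obtain ⟨C, hC1, hC2⟩ := exists_sep_code k m q ℓ l n hk hm hqk hl1 hkl hmn (by
    have h1 : ((q ^ n - q ^ (n - m) : ℕ) : ℝ) = (q : ℝ) ^ n * (1 - 1 / D) := by
      rw [Nat.cast_sub (Nat.pow_le_pow_right (by omega) (Nat.sub_le _ _))]
      push_cast
      have h2 : (q : ℝ) ^ n = q ^ (n - m) * D := by
        rw [hD, ← pow_add, Nat.sub_add_cancel hmn]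
      rw [h2]
      field_simp
    have h3 : (0 : ℝ) ≤ 1 - 1 / D := by
      rw [sub_nonneg, div_le_one hDpos]; exact hD1
    have h4 : (1 - 1 / D) ^ l ≤ Real.exp (-(l / D)) := by
      calc (1 - 1 / D) ^ l ≤ (Real.exp (-(1 / D))) ^ l :=
            pow_le_pow_left₀ h3 (Real.one_sub_le_exp_neg _) l
        _ = Real.exp (-(l / D)) := by
            rw [← Real.exp_nat_mul]
            congr 1
            ring
    have h5 : (2 : ℝ) ^ m * n ^ m * (ℓ + 1) * (1 - 1 / D) ^ l < 1 := by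
      calc (2 : ℝ) ^ m * n ^ m * (ℓ + 1) * (1 - 1 / D) ^ l
          ≤ 2 ^ m * (Real.exp (y ℓ)) ^ m * (ℓ + 1) * Real.exp (-(l / D)) := by gcongr
        _ = Real.exp (m * Real.log 2) * Real.exp (m * y ℓ) * Real.exp (Real.log (ℓ + 1)) *
            Real.exp (-(l / D)) := by
            rw [Real.exp_nat_mul, Real.exp_nat_mul, Real.exp_log (by norm_num),
              Real.exp_log (by positivity)]
        _ = Real.exp (m * Real.log 2 + m * y ℓ + Real.log (ℓ + 1) + -(l / D)) := by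
            rw [← Real.exp_add, ← Real.exp_add, ← Real.exp_add]
        _ < 1 := by
            rw [Real.exp_lt_one_iff]
            have h6 : (m : ℝ) * y ℓ = (ℓ / k - 1) / D - Real.log ((ℓ : ℝ) + 1) -
                m * Real.log 2 - 1 := by
              rw [hy]
              field_simp
            have h7 : ((ℓ : ℝ) / k - 1) / D ≤ l / D := div_le_div_of_nonneg_right hlr hDpos.le
            rw [h6]
            linarith
    have h8 : (2 : ℝ) ^ m * n ^ m * (ℓ + 1) *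
        (((q : ℝ) ^ n * (1 - 1 / D)) ^ l * ((q : ℝ) ^ n) ^ (ℓ - l)) < ((q : ℝ) ^ n) ^ ℓ := by
      have h9 : (2 : ℝ) ^ m * n ^ m * (ℓ + 1) *
          (((q : ℝ) ^ n * (1 - 1 / D)) ^ l * ((q : ℝ) ^ n) ^ (ℓ - l)) =
          (2 : ℝ) ^ m * n ^ m * (ℓ + 1) * (1 - 1 / D) ^ l * ((q : ℝ) ^ n) ^ ℓ := by
        have h10 : ((q : ℝ) ^ n) ^ ℓ = ((q : ℝ) ^ n) ^ l * ((q : ℝ) ^ n) ^ (ℓ - l) := by
          rw [← pow_add, Nat.add_sub_cancel' hll]
        rw [h10, mul_pow]
        ring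
      rw [h9]
      have h11 : (0 : ℝ) < ((q : ℝ) ^ n) ^ ℓ := by positivity
      calc _ < 1 * ((q : ℝ) ^ n) ^ ℓ := mul_lt_mul_of_pos_right h5 h11
        _ = _ := one_mul _
    rw [← h1] at h8
    exact_mod_cast h8)
  have h6 : n ≤ maxSeq q ℓ k := by
    rw [← hC1]
    exact le_maxSeq hC2
  have h7 : Real.exp (y ℓ) / 2 ≤ maxSeq q ℓ k := by
    have : (n : ℝ) ≤ maxSeq q ℓ k := by exact_mod_cast h6
    linarith
  have h8 : y ℓ - Real.log 2 ≤ Real.log (maxSeq q ℓ k) := by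
    have := Real.log_le_log (by positivity) h7
    rwa [Real.log_div (Real.exp_pos _).ne' (by norm_num), Real.log_exp] at this
  have h9 : rate q ℓ k = Real.log (maxSeq q ℓ k) / (Real.log q * ℓ) := by
    unfold rate
    rw [Real.logb, div_div]
  rw [h9, le_div_iff₀ (by positivity)]
  refine le_trans (le_of_eq ?_) h8
  field_simp

end Pool.Agent.TH403.IPP
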