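import Pool.Agent.TH403.IPP.Upper

set_option autoImplicit false

/-!
Random codes with deletion over a large alphabet, for all lengths.
-/

namespace Pool.Agent.TH403.IPP

open Finset Pool.Agent.H230R2.Seq Pool.Agent.H230R2.IPP

variable {n q ℓ : ℕ}

open Classical in
/-- Columns in which two different indices of `I` have the same symbol. -/
noncomputable def colCol (n q : ℕ) (I : Finset (Fin n)) : Finset (Fin n → Fin q) :=
  univ.filter (fun col => ∃ i ∈ I, ∃ i' ∈ I, i ≠ i' ∧ col i = col i')

lemma pair_card (i i' : Fin n) (h : i ≠ i') :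
    (univ.filter (fun col : Fin n → Fin q => col i = col i')).card * q ≤ q ^ n := by
  classical
  have h1 : ((univ.filter (fun col : Fin n → Fin q => col i = col i')) ×ˢ
      (univ : Finset (Fin q))).card ≤ (univ : Finset (Fin n → Fin q)).card := by
    refine Finset.card_le_card_of_injOn (fun x => Function.update x.1 i' x.2)
      (fun _ _ => Finset.mem_coe.2 (Finset.mem_univ _)) ?_
    rintro ⟨c, a⟩ hc ⟨c', a'⟩ hc' heq
    simp only [Finset.coe_product, Set.mem_prod, Finset.mem_coe, Finset.mem_filter,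
      Finset.mem_univ, true_and, and_true] at hc hc' heq
    have ha : a = a' := by
      have := congrFun heq i'
      simpa using this
    refine Prod.ext ?_ ha
    funext j
    by_cases hj : j = i'
    · subst hj
      have h2 := congrFun heq i
      rw [Function.update_of_ne h, Function.update_of_ne h] at h2
      simp only
      rw [← hc, ← hc', h2]
    · have h2 := congrFun heq j
      rwa [Function.update_of_ne hj, Function.update_of_ne hj] at h2
  rw [Finset.card_product, Finset.card_univ, Finset.card_univ, Fintype.card_fin,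
    Fintype.card_fun, Fintype.card_fin, Fintype.card_fin] at h1
  exact h1

lemma colCol_card (I : Finset (Fin n)) : (colCol n q I).card * q ≤ I.card ^ 2 * q ^ n := by
  classical
  have h1 : colCol n q I ⊆ ((I ×ˢ I).filter (fun p => p.1 ≠ p.2)).biUnion
      (fun p => univ.filter (fun col : Fin n → Fin q => col p.1 = col p.2)) := by
    intro col hcol
    unfold colCol at hcol
    rw [Finset.mem_filter] at hcol
    obtain ⟨_, i, hi, i', hi', hne, heq⟩ := hcol
    rw [Finset.mem_biUnion]
    exact ⟨(i, i'), Finset.mem_filter.2 ⟨Finset.mem_product.2 ⟨hi, hi'⟩, hne⟩,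
      Finset.mem_filter.2 ⟨Finset.mem_univ _, heq⟩⟩
  calc (colCol n q I).card * q
      ≤ (∑ p ∈ (I ×ˢ I).filter (fun p => p.1 ≠ p.2),
          (univ.filter (fun col : Fin n → Fin q => col p.1 = col p.2)).card) * q :=
        Nat.mul_le_mul_right _ ((Finset.card_le_card h1).trans Finset.card_biUnion_le)
    _ = ∑ p ∈ (I ×ˢ I).filter (fun p => p.1 ≠ p.2),
          (univ.filter (fun col : Fin n → Fin q => col p.1 = col p.2)).card * q :=
        Finset.sum_mul _ _ _
    _ ≤ ∑ p ∈ (I ×ˢ I).filter (fun p => p.1 ≠ p.2), q ^ n :=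
        Finset.sum_le_sum (fun p hp => pair_card p.1 p.2 (Finset.mem_filter.1 hp).2)
    _ = ((I ×ˢ I).filter (fun p => p.1 ≠ p.2)).card * q ^ n := by
        rw [Finset.sum_const, smul_eq_mul]
    _ ≤ I.card ^ 2 * q ^ n := by
        apply Nat.mul_le_mul_right
        refine (Finset.card_filter_le _ _).trans ?_
        rw [Finset.card_product, sq]

open Classical in
/-- Column sequences with at least `r` columns in which `I` has a collision. -/
noncomputable def badS (n q ℓ r : ℕ) (I : Finset (Fin n)) : Finset (Fin ℓ → Fin n → Fin q) :=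
  univ.filter (fun c => r ≤ (univ.filter (fun j => c j ∈ colCol n q I)).card)

lemma badS_card (r : ℕ) (I : Finset (Fin n)) :
    (badS n q ℓ r I).card * q ^ r ≤ 2 ^ ℓ * (I.card ^ 2) ^ r * (q ^ n) ^ ℓ := by
  classical
  set F : Finset (Fin ℓ) → Finset (Fin ℓ → Fin n → Fin q) := fun T =>
    Fintype.piFinset (fun j : Fin ℓ => if j ∈ T then colCol n q I else univ) with hF
  have hFc : ∀ T : Finset (Fin ℓ), T.card = r →
      (F T).card * q ^ r ≤ (I.card ^ 2) ^ r * (q ^ n) ^ ℓ := by
    intro T hT
    have h1 : (F T).card = (colCol n q I).card ^ r * (q ^ n) ^ (ℓ - r) := by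
      rw [hF]
      simp only
      rw [Fintype.card_piFinset]
      have h2 : ∀ j : Fin ℓ, (if j ∈ T then colCol n q I else
          (univ : Finset (Fin n → Fin q))).card =
          if j ∈ T then (colCol n q I).card else q ^ n := by
        intro j; split_ifs <;> simp
      rw [Finset.prod_congr rfl (fun j _ => h2 j), Finset.prod_ite, Finset.prod_const,
        Finset.prod_const]
      have h3 : (univ.filter (fun j => j ∈ T)) = T := by ext; simp
      have h4 : (univ.filter (fun j => j ∈ T)).card +
          (univ.filter (fun j : Fin ℓ => ¬ j ∈ T)).card = ℓ := by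
        rw [Finset.card_filter_add_card_filter_not, Finset.card_univ, Fintype.card_fin]
      rw [h3] at h4
      rw [h3, hT]
      congr 2
      omega
    have hrℓ : r ≤ ℓ := by
      rw [← hT]
      have := Finset.card_le_univ T
      rwa [Fintype.card_fin] at this
    calc (F T).card * q ^ r = ((colCol n q I).card * q) ^ r * (q ^ n) ^ (ℓ - r) := by
          rw [h1, mul_pow]; ring
      _ ≤ (I.card ^ 2 * q ^ n) ^ r * (q ^ n) ^ (ℓ - r) :=
          Nat.mul_le_mul_right _ (Nat.pow_le_pow_left (colCol_card I) r)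
      _ = (I.card ^ 2) ^ r * ((q ^ n) ^ r * (q ^ n) ^ (ℓ - r)) := by
          rw [mul_pow]; ring
      _ = _ := by rw [← pow_add, Nat.add_sub_cancel' hrℓ]
  have hsub : badS n q ℓ r I ⊆ ((univ : Finset (Fin ℓ)).powersetCard r).biUnion F := by
    intro c hc
    unfold badS at hc
    rw [Finset.mem_filter] at hc
    obtain ⟨T, hT, hTr⟩ := Finset.exists_subset_card_eq hc.2
    rw [Finset.mem_biUnion]
    refine ⟨T, Finset.mem_powersetCard.2 ⟨Finset.subset_univ _, hTr⟩, ?_⟩
    rw [hF]
    simp only
    rw [Fintype.mem_piFinset]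
    intro j
    by_cases hj : j ∈ T
    · rw [if_pos hj]
      exact (Finset.mem_filter.1 (hT hj)).2
    · rw [if_neg hj]
      exact Finset.mem_univ _
  calc (badS n q ℓ r I).card * q ^ r
      ≤ (∑ T ∈ (univ : Finset (Fin ℓ)).powersetCard r, (F T).card) * q ^ r :=
        Nat.mul_le_mul_right _ ((Finset.card_le_card hsub).trans Finset.card_biUnion_le)
    _ = ∑ T ∈ (univ : Finset (Fin ℓ)).powersetCard r, (F T).card * q ^ r := Finset.sum_mul _ _ _
    _ ≤ ∑ T ∈ (univ : Finset (Fin ℓ)).powersetCard r, (I.card ^ 2) ^ r * (q ^ n) ^ ℓ :=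
        Finset.sum_le_sum (fun T hT => hFc T (Finset.mem_powersetCard.1 hT).2)
    _ = ((univ : Finset (Fin ℓ)).powersetCard r).card * ((I.card ^ 2) ^ r * (q ^ n) ^ ℓ) := by
        rw [Finset.sum_const, smul_eq_mul]
    _ ≤ 2 ^ ℓ * ((I.card ^ 2) ^ r * (q ^ n) ^ ℓ) := by
        apply Nat.mul_le_mul_right
        rw [Finset.card_powersetCard, Finset.card_univ, Fintype.card_fin]
        exact Nat.choose_le_two_pow _ _
    _ = _ := by ring

/-- The deletion argument. -/
theorem exists_code (k q ℓ K n : ℕ) (hk : 1 ≤ k) (hq : (2 * k) ^ 2 ≤ q) (hℓ : K + 1 ≤ ℓ)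
    (hn : 2 * (2 * k) * 2 ^ ℓ * (n * ((2 * k) ^ 2) ^ K) ≤ q ^ K) :
    ∃ C : Finset (Fin ℓ → Fin q), n ≤ 2 * C.card ∧
      ∀ V ⊆ C, V.Nonempty → V.card ≤ 2 * k → (coll V).card ≤ K * (V.card - 1) := by
  classical
  set u := 2 * k with hu
  set a := (u ^ 2) ^ K with ha
  set b := q ^ K with hb
  have hqpos : 0 < q := lt_of_lt_of_le (by positivity) hq
  have hbpos : 0 < b := by rw [hb]; positivity
  set Ω : ℕ := (q ^ n) ^ ℓ with hΩ
  have hΩpos : 0 < Ω := by rw [hΩ]; positivity
  let rr : ℕ → ℕ := fun v => K * (v - 1) + 1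
  -- bound for one index set
  have hI : ∀ v, 2 ≤ v → v ≤ u → ∀ I : Finset (Fin n), I.card = v →
      (badS n q ℓ (rr v) I).card * b ^ (v - 1) ≤ 2 ^ ℓ * a ^ (v - 1) * Ω := by
    intro v hv2 hvu I hIv
    have h1 := badS_card (q := q) (ℓ := ℓ) (rr v) I
    rw [hIv] at h1
    have h2 : (badS n q ℓ (rr v) I).card * b ^ (v - 1) * q ≤ 2 ^ ℓ * a ^ (v - 1) * Ω * q := by
      calc (badS n q ℓ (rr v) I).card * b ^ (v - 1) * q
          = (badS n q ℓ (rr v) I).card * q ^ (rr v) := by
            simp only [rr]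
            rw [hb, pow_succ, pow_mul]; ring
        _ ≤ 2 ^ ℓ * (v ^ 2) ^ (rr v) * Ω := h1
        _ ≤ 2 ^ ℓ * (u ^ 2) ^ (rr v) * Ω := by
            apply Nat.mul_le_mul_right
            apply Nat.mul_le_mul_left
            apply Nat.pow_le_pow_left
            exact Nat.pow_le_pow_left hvu 2
        _ = 2 ^ ℓ * a ^ (v - 1) * Ω * u ^ 2 := by
            simp only [rr]
            rw [ha, pow_succ, pow_mul]; ring
        _ ≤ _ := Nat.mul_le_mul_left _ hq
    exact Nat.le_of_mul_le_mul_right h2 hqpos
  -- bound for all index sets of size v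
  let S : ℕ → ℕ := fun v => ∑ I ∈ (univ : Finset (Fin n)).powersetCard v,
    (badS n q ℓ (rr v) I).card
  have hS : ∀ v, 2 ≤ v → v ≤ u → S v * (2 * u) ≤ n * Ω := by
    intro v hv2 hvu
    have h1 : S v * b ^ (v - 1) ≤ n ^ v * (2 ^ ℓ * a ^ (v - 1) * Ω) := by
      calc S v * b ^ (v - 1) = ∑ I ∈ (univ : Finset (Fin n)).powersetCard v,
            (badS n q ℓ (rr v) I).card * b ^ (v - 1) := Finset.sum_mul _ _ _
        _ ≤ ∑ I ∈ (univ : Finset (Fin n)).powersetCard v, 2 ^ ℓ * a ^ (v - 1) * Ω :=
            Finset.sum_le_sum (fun I hI' => hI v hv2 hvu I (Finset.mem_powersetCard.1 hI').2)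
        _ = ((univ : Finset (Fin n)).powersetCard v).card * (2 ^ ℓ * a ^ (v - 1) * Ω) := by
            rw [Finset.sum_const, smul_eq_mul]
        _ ≤ _ := by
            apply Nat.mul_le_mul_right
            rw [Finset.card_powersetCard, Finset.card_univ, Fintype.card_fin]
            exact Nat.choose_le_pow _ _
    obtain ⟨w, hw⟩ : ∃ w, v = w + 2 := ⟨v - 2, by omega⟩
    have hv1 : v - 1 = w + 1 := by omega
    rw [hv1] at h1
    have h2 : S v * (2 * u) * b ^ (w + 1) ≤ n * Ω * b ^ (w + 1) := by
      calc S v * (2 * u) * b ^ (w + 1) = S v * b ^ (w + 1) * (2 * u) := by ring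
        _ ≤ n ^ v * (2 ^ ℓ * a ^ (w + 1) * Ω) * (2 * u) := Nat.mul_le_mul_right _ h1
        _ = n * Ω * ((2 * u * 2 ^ ℓ) * (n * a) ^ (w + 1)) := by
            rw [hw, mul_pow]; ring
        _ ≤ n * Ω * ((2 * u * 2 ^ ℓ) ^ (w + 1) * (n * a) ^ (w + 1)) := by
            apply Nat.mul_le_mul_left
            apply Nat.mul_le_mul_right
            have h3 : 1 ≤ 2 * u * 2 ^ ℓ := by
              have : 0 < 2 * u * 2 ^ ℓ := by positivity
              omega
            calc 2 * u * 2 ^ ℓ = (2 * u * 2 ^ ℓ) ^ 1 := (pow_one _).symm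
              _ ≤ _ := Nat.pow_le_pow_right h3 (by omega)
        _ = n * Ω * (2 * u * 2 ^ ℓ * (n * a)) ^ (w + 1) := by rw [← mul_pow]
        _ ≤ _ := Nat.mul_le_mul_left _ (Nat.pow_le_pow_left hn _)
    exact Nat.le_of_mul_le_mul_right h2 (by positivity)
  -- all bad index sets of a column sequence
  let bad : (Fin ℓ → Fin n → Fin q) → Finset (Finset (Fin n)) := fun c =>
    univ.filter (fun I => 2 ≤ I.card ∧ I.card ≤ u ∧ c ∈ badS n q ℓ (rr I.card) I)
  have hsum : ∑ c : Fin ℓ → Fin n → Fin q, 2 * (bad c).card ≤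
      ∑ _c : Fin ℓ → Fin n → Fin q, n := by
    have h1 : ∀ c : Fin ℓ → Fin n → Fin q, (bad c).card =
        ∑ v ∈ Finset.Icc 2 u, ∑ I ∈ (univ : Finset (Fin n)).powersetCard v,
          if c ∈ badS n q ℓ (rr v) I then 1 else 0 := by
      intro c
      have h2 : bad c = (Finset.Icc 2 u).biUnion (fun v =>
          ((univ : Finset (Fin n)).powersetCard v).filter (fun I => c ∈ badS n q ℓ (rr v) I)) := by
        ext I
        simp only [bad, Finset.mem_filter, Finset.mem_univ, true_and, Finset.mem_biUnion,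
          Finset.mem_Icc, Finset.mem_powersetCard, Finset.subset_univ]
        constructor
        · rintro ⟨h3, h4, h5⟩
          exact ⟨I.card, ⟨h3, h4⟩, rfl, h5⟩
        · rintro ⟨v, ⟨h3, h4⟩, h5, h6⟩
          rw [h5]
          exact ⟨h3, h4, h6⟩
      rw [h2, Finset.card_biUnion]
      · apply Finset.sum_congr rfl
        intro v _
        rw [Finset.card_filter]
      · intro v _ v' _ hvv'
        rw [Function.onFun, Finset.disjoint_left]
        intro I hI1 hI2
        rw [Finset.mem_filter, Finset.mem_powersetCard] at hI1 hI2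
        exact hvv' (hI1.1.2.symm.trans hI2.1.2)
    have h3 : ∑ c : Fin ℓ → Fin n → Fin q, (bad c).card = ∑ v ∈ Finset.Icc 2 u, S v := by
      rw [Finset.sum_congr rfl (fun c _ => h1 c), Finset.sum_comm]
      apply Finset.sum_congr rfl
      intro v _
      simp only [S]
      rw [Finset.sum_comm]
      apply Finset.sum_congr rfl
      intro I _
      rw [← Finset.card_filter, Finset.filter_mem_eq_inter, Finset.univ_inter]
    rw [← Finset.mul_sum, h3, Finset.sum_const, Finset.card_univ, smul_eq_mul]
    have h4 : Fintype.card (Fin ℓ → Fin n → Fin q) = Ω := by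
      simp only [Fintype.card_fun, Fintype.card_fin]
      exact hΩ.symm
    rw [h4]
    have h5 : (∑ v ∈ Finset.Icc 2 u, S v) * (2 * u) ≤ u * (n * Ω) := by
      rw [Finset.sum_mul]
      calc ∑ v ∈ Finset.Icc 2 u, S v * (2 * u) ≤ ∑ v ∈ Finset.Icc 2 u, n * Ω :=
            Finset.sum_le_sum (fun v hv => hS v (Finset.mem_Icc.1 hv).1 (Finset.mem_Icc.1 hv).2)
        _ = (Finset.Icc 2 u).card * (n * Ω) := by rw [Finset.sum_const, smul_eq_mul]
        _ ≤ _ := by
            apply Nat.mul_le_mul_right
            rw [Nat.card_Icc]; omega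
    have hupos : 0 < u := by omega
    have h6 : u * (2 * ∑ v ∈ Finset.Icc 2 u, S v) ≤ u * (Ω * n) := by
      calc u * (2 * ∑ v ∈ Finset.Icc 2 u, S v) = (∑ v ∈ Finset.Icc 2 u, S v) * (2 * u) := by ring
        _ ≤ u * (n * Ω) := h5
        _ = _ := by ring
    exact Nat.le_of_mul_le_mul_left h6 hupos
  haveI : Nonempty (Fin ℓ → Fin n → Fin q) := ⟨fun _ _ => ⟨0, hqpos⟩⟩
  obtain ⟨c, _, hc⟩ := Finset.exists_le_of_sum_le (s := (univ : Finset (Fin ℓ → Fin n → Fin q)))
    Finset.univ_nonempty hsum
  -- delete one index of each bad set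
  have hrep : ∀ I : Finset (Fin n), ∃ i : Option (Fin n), I.Nonempty → ∃ i' ∈ I, i = some i' := by
    intro I
    by_cases h : I.Nonempty
    · obtain ⟨i, hi⟩ := h
      exact ⟨some i, fun _ => ⟨i, hi, rfl⟩⟩
    · exact ⟨none, fun h' => absurd h' h⟩
  choose rep hrep using hrep
  set J : Finset (Fin n) := univ.filter (fun i => some i ∉ (bad c).image rep) with hJ
  have hJc : n ≤ 2 * J.card := by
    have h1 : (univ.filter (fun i : Fin n => ¬ some i ∉ (bad c).image rep)).card ≤
        (bad c).card := by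
      refine le_trans ?_ (Finset.card_image_le (s := bad c) (f := rep))
      rw [← Finset.card_image_of_injective _ (Option.some_injective (Fin n))]
      apply Finset.card_le_card
      intro x hx
      rw [Finset.mem_image] at hx
      obtain ⟨i, hi, rfl⟩ := hx
      rw [Finset.mem_filter] at hi
      exact not_not.1 hi.2
    have h2 := Finset.card_filter_add_card_filter_not (s := (univ : Finset (Fin n)))
      (fun i => some i ∉ (bad c).image rep)
    rw [Finset.card_univ, Fintype.card_fin, ← hJ] at h2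
    omega
  have hgood : ∀ I ⊆ J, 2 ≤ I.card → I.card ≤ u → c ∉ badS n q ℓ (rr I.card) I := by
    intro I hIJ h2 hIu hbad
    have h3 : I ∈ bad c := by
      simp only [bad, Finset.mem_filter, Finset.mem_univ, true_and]
      exact ⟨h2, hIu, hbad⟩
    obtain ⟨i, hi, hri⟩ := hrep I (Finset.card_pos.1 (by omega))
    have h4 := hIJ hi
    rw [hJ, Finset.mem_filter] at h4
    exact h4.2 (Finset.mem_image.2 ⟨I, h3, hri⟩)
  let wd : Fin n → (Fin ℓ → Fin q) := fun i j => c j i
  have hcount : ∀ I ⊆ J, 2 ≤ I.card → I.card ≤ u →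
      (univ.filter (fun j => c j ∈ colCol n q I)).card ≤ K * (I.card - 1) := by
    intro I hIJ h2 hIu
    have h3 := hgood I hIJ h2 hIu
    unfold badS at h3
    rw [Finset.mem_filter] at h3
    push Not at h3
    have h4 := h3 (Finset.mem_univ _)
    simp only [rr] at h4
    omega
  have hinj : Set.InjOn wd J := by
    intro i hi i' hi' heq
    by_contra hne
    have h1 : ({i, i'} : Finset (Fin n)).card = 2 := Finset.card_pair hne
    have h2 := hcount {i, i'} (by
      intro x hx
      rw [Finset.mem_insert, Finset.mem_singleton] at hx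
      rcases hx with rfl | rfl
      · exact hi
      · exact hi') (by omega) (by omega)
    have h3 : (univ.filter (fun j => c j ∈ colCol n q {i, i'})) = univ := by
      rw [Finset.filter_eq_self]
      intro j _
      unfold colCol
      rw [Finset.mem_filter]
      exact ⟨Finset.mem_univ _, i, by simp, i', by simp, hne, congrFun heq j⟩
    rw [h3, h1, Finset.card_univ, Fintype.card_fin] at h2
    omega
  refine ⟨J.image wd, ?_, ?_⟩
  · rw [Finset.card_image_of_injOn hinj]
    exact hJc
  · intro V hV hVne hVu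
    set I : Finset (Fin n) := J.filter (fun i => wd i ∈ V) with hI'
    have hIV : I.image wd = V := by
      ext x
      rw [Finset.mem_image]
      constructor
      · rintro ⟨i, hi, rfl⟩
        rw [hI', Finset.mem_filter] at hi
        exact hi.2
      · intro hx
        obtain ⟨i, hi, rfl⟩ := Finset.mem_image.1 (hV hx)
        exact ⟨i, by rw [hI', Finset.mem_filter]; exact ⟨hi, hx⟩, rfl⟩
    have hIJ : I ⊆ J := Finset.filter_subset _ _
    have hIc : I.card = V.card := by
      rw [← hIV, Finset.card_image_of_injOn (fun x hx y hy h => hinj (hIJ hx) (hIJ hy) h)]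
    by_cases hV1 : V.card = 1
    · obtain ⟨x, hx⟩ := Finset.card_eq_one.1 hV1
      have : coll V = ∅ := by
        rw [Finset.eq_empty_iff_forall_notMem]
        intro j hj
        unfold coll at hj
        rw [Finset.mem_filter] at hj
        obtain ⟨_, y, hy, y', hy', hne, _⟩ := hj
        rw [hx, Finset.mem_singleton] at hy hy'
        exact hne (hy.trans hy'.symm)
      rw [this]; simp
    · have hVpos : 0 < V.card := Finset.card_pos.2 hVne
      have h1 := hcount I hIJ (by omega) (by omega)
      rw [hIc] at h1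
      refine le_trans (Finset.card_le_card ?_) h1
      intro j hj
      unfold coll at hj
      rw [Finset.mem_filter] at hj
      obtain ⟨_, y, hy, y', hy', hne, heq⟩ := hj
      rw [← hIV, Finset.mem_image] at hy hy'
      obtain ⟨i, hi, rfl⟩ := hy
      obtain ⟨i', hi', rfl⟩ := hy'
      rw [Finset.mem_filter]
      refine ⟨Finset.mem_univ _, ?_⟩
      unfold colCol
      rw [Finset.mem_filter]
      refine ⟨Finset.mem_univ _, i, hi, i', hi', ?_, heq⟩
      rintro rfl
      exact hne rfl

end Pool.Agent.TH403.IPP
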