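import Pool.Agent.TH403.IPP.Random

set_option autoImplicit false

/-!
The rate of sequential `k`-IPP codes over a fixed alphabet, as the length tends to infinity.
-/

namespace Pool.Agent.TH403.IPP

open Finset Filter Topology Pool.Agent.H230R2.Seq Pool.Agent.H230R2.IPP

lemma rate_nonneg (q ℓ k : ℕ) (hq : 2 ≤ q) : 0 ≤ rate q ℓ k := by
  have hq1 : (1 : ℝ) < q := by exact_mod_cast hq
  unfold rate
  apply div_nonneg _ (Nat.cast_nonneg _)
  rcases Nat.eq_zero_or_pos (maxSeq q ℓ k) with h1 | h1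
  · rw [h1]; simp
  · exact Real.logb_nonneg hq1 (by exact_mod_cast h1)

lemma maxSeq_le_pow (q ℓ k : ℕ) : maxSeq q ℓ k ≤ q ^ ℓ := by
  obtain ⟨C, hC, _⟩ := exists_max q ℓ k
  rw [← hC]
  have := Finset.card_le_univ C
  simpa using this

lemma rate_le_one (q ℓ k : ℕ) (hq : 2 ≤ q) : rate q ℓ k ≤ 1 := by
  have hq1 : (1 : ℝ) < q := by exact_mod_cast hq
  unfold rate
  apply div_le_one_of_le₀ _ (Nat.cast_nonneg _)
  rcases Nat.eq_zero_or_pos (maxSeq q ℓ k) with h1 | h1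
  · rw [h1]; simp
  · calc Real.logb q (maxSeq q ℓ k) ≤ Real.logb q ((q : ℝ) ^ ℓ) :=
          Real.logb_le_logb_of_le hq1 (by exact_mod_cast h1) (by exact_mod_cast maxSeq_le_pow q ℓ k)
      _ = ℓ := by rw [Real.logb_pow, Real.logb_self_eq_one hq1, mul_one]

lemma bdd_above (q k : ℕ) (hq : 2 ≤ q) :
    IsBoundedUnder (· ≤ ·) atTop (fun ℓ => rate q ℓ k) :=
  isBoundedUnder_of ⟨1, fun ℓ => rate_le_one q ℓ k hq⟩

lemma bdd_below (q k : ℕ) (hq : 2 ≤ q) :
    IsBoundedUnder (· ≥ ·) atTop (fun ℓ => rate q ℓ k) :=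
  isBoundedUnder_of ⟨0, fun ℓ => rate_nonneg q ℓ k hq⟩

lemma le_liminf {q k : ℕ} (hq : 2 ≤ q) {f : ℕ → ℝ} {c : ℝ} (hf : Tendsto f atTop (𝓝 c))
    (h : ∀ᶠ ℓ in atTop, f ℓ ≤ rate q ℓ k) : c ≤ liminf (fun ℓ => rate q ℓ k) atTop := by
  rw [← hf.liminf_eq]
  exact liminf_le_liminf h hf.isBoundedUnder_ge (bdd_above q k hq).isCoboundedUnder_ge

lemma limsup_le {q k : ℕ} (hq : 2 ≤ q) {f : ℕ → ℝ} {c : ℝ} (hf : Tendsto f atTop (𝓝 c))
    (h : ∀ᶠ ℓ in atTop, rate q ℓ k ≤ f ℓ) : limsup (fun ℓ => rate q ℓ k) atTop ≤ c := by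
  rw [← hf.limsup_eq]
  exact limsup_le_limsup h (bdd_below q k hq).isCoboundedUnder_le hf.isBoundedUnder_le

/-- the number of words is bounded if `q ≤ k` -/
theorem small (k q : ℕ) (hk : 1 ≤ k) (hq : 2 ≤ q) (hqk : q ≤ k) :
    Tendsto (fun ℓ => rate q ℓ k) atTop (𝓝 0) := by
  have hq1 : (1 : ℝ) < q := by exact_mod_cast hq
  have hb : ∀ ℓ, maxSeq q ℓ k ≤ k := by
    intro ℓ
    obtain ⟨C, hC, hC'⟩ := exists_max q ℓ k
    rw [← hC]
    exact small_alphabet hk hqk hC'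
  have h1 : Tendsto (fun ℓ : ℕ => Real.logb q k / (ℓ : ℝ)) atTop (𝓝 0) :=
    tendsto_const_nhds.div_atTop tendsto_natCast_atTop_atTop
  refine squeeze_zero (fun ℓ => rate_nonneg q ℓ k hq) (fun ℓ => ?_) h1
  unfold rate
  apply div_le_div_of_nonneg_right _ (Nat.cast_nonneg _)
  rcases Nat.eq_zero_or_pos (maxSeq q ℓ k) with h2 | h2
  · rw [h2]
    simp only [Nat.cast_zero, Real.logb_zero]
    exact Real.logb_nonneg hq1 (by exact_mod_cast hk)
  · exact Real.logb_le_logb_of_le hq1 (by exact_mod_cast h2) (by exact_mod_cast hb ℓ)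

lemma tri_real (k : ℕ) : ((k * (k + 1) / 2 : ℕ) : ℝ) = (k : ℝ) * (k + 1) / 2 := by
  have h : 2 ∣ k * (k + 1) := (Nat.even_mul_succ_self k).two_dvd
  rw [Nat.cast_div h (by norm_num)]
  push_cast
  ring

/-- upper bound for the rate -/
theorem upper (k q : ℕ) (hk : 1 ≤ k) (hq : 2 ≤ q) :
    limsup (fun ℓ => rate q ℓ k) atTop ≤ 2 / ((k : ℝ) * (k + 1)) := by
  have hq1 : (1 : ℝ) < q := by exact_mod_cast hq
  have hq0 : (0 : ℝ) < q := by linarith
  have hkr : (0 : ℝ) < k := by exact_mod_cast hk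
  set c : ℝ := ((k * k * k + k : ℕ) : ℝ) with hc
  have hc1 : 1 ≤ c := by
    rw [hc]
    have : 1 ≤ k * k * k + k := by omega
    exact_mod_cast this
  set T : ℝ := (k : ℝ) * (k + 1) / 2 with hT
  have hTpos : 0 < T := by rw [hT]; positivity
  -- `tstar ℓ k ≤ ℓ / T + 1`
  have ht : ∀ ℓ : ℕ, (tstar ℓ k : ℝ) ≤ ℓ / T + 1 := by
    intro ℓ
    unfold tstar
    split_ifs with h
    · push_cast
      positivity
    · push_cast
      have h1 : ((((ℓ - k) / (k * (k + 1) / 2) : ℕ)) : ℝ) ≤ ((ℓ - k : ℕ) : ℝ) / T := by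
        rw [hT, ← tri_real]
        exact Nat.cast_div_le
      have h2 : ((ℓ - k : ℕ) : ℝ) / T ≤ ℓ / T := by
        apply div_le_div_of_nonneg_right _ hTpos.le
        exact_mod_cast Nat.sub_le _ _
      linarith
  have hf : Tendsto (fun ℓ : ℕ => 1 / T + (1 + Real.logb q c) / (ℓ : ℝ)) atTop
      (𝓝 (1 / T + 0)) :=
    tendsto_const_nhds.add (tendsto_const_nhds.div_atTop tendsto_natCast_atTop_atTop)
  have hfin : (1 / T + 0 : ℝ) = 2 / ((k : ℝ) * (k + 1)) := by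
    rw [hT, add_zero, one_div_div]
  rw [← hfin]
  refine limsup_le hq hf ?_
  filter_upwards [eventually_ge_atTop 1] with ℓ hℓ
  have hℓr : (0 : ℝ) < ℓ := by exact_mod_cast hℓ
  have hlog : 0 ≤ Real.logb q c := Real.logb_nonneg hq1 hc1
  unfold rate
  have h3 : Real.logb q (maxSeq q ℓ k) ≤ Real.logb q c + (ℓ / T + 1) := by
    rcases Nat.eq_zero_or_pos (maxSeq q ℓ k) with h2 | h2
    · rw [h2]
      simp only [Nat.cast_zero, Real.logb_zero]
      positivity
    · have h4 : ((maxSeq q ℓ k : ℕ) : ℝ) ≤ c * (q : ℝ) ^ (tstar ℓ k) := by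
        have := maxSeq_upper' (q := q) (ℓ := ℓ) hk (by omega)
        rw [hc]
        exact_mod_cast this
      have h5 : Real.logb q (maxSeq q ℓ k) ≤ Real.logb q (c * (q : ℝ) ^ (tstar ℓ k)) :=
        Real.logb_le_logb_of_le hq1 (by exact_mod_cast h2) h4
      refine h5.trans ?_
      rw [Real.logb_mul (by linarith) (by positivity), Real.logb_pow,
        Real.logb_self_eq_one hq1, mul_one]
      linarith [ht ℓ]
  calc Real.logb q (maxSeq q ℓ k) / ℓ ≤ (Real.logb q c + (ℓ / T + 1)) / ℓ :=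
        div_le_div_of_nonneg_right h3 hℓr.le
    _ = 1 / T + (1 + Real.logb q c) / ℓ := by
        field_simp
        ring

/-- lower bound for the logarithm of the number of words -/
lemma log_lower (k q ℓ : ℕ) (hk : 1 ≤ k) (hq : (2 * k) ^ 2 ≤ q) (hℓ : k ≤ ℓ) (h2 : 2 ≤ ℓ) :
    (((ℓ - k) / (k * (k + 1) / 2) : ℕ) : ℝ) * (Real.log q - Real.log ((2 * k) ^ 2)) -
      ℓ * Real.log 2 - Real.log (16 * k) ≤ Real.log (maxSeq q ℓ k) := by
  set K := (ℓ - k) / (k * (k + 1) / 2) with hK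
  have h1 : K * (k * (k + 1) / 2) + k ≤ ℓ := by
    have := Nat.div_mul_le_self (ℓ - k) (k * (k + 1) / 2)
    rw [← hK] at this
    omega
  have hT := tri_pos hk
  have h3 : K + 1 ≤ ℓ := by nlinarith
  have hqpos : (0 : ℝ) < q := by
    have : 0 < q := lt_of_lt_of_le (by positivity) hq
    exact_mod_cast this
  have hkr : (0 : ℝ) < k := by exact_mod_cast hk
  set x : ℝ := (q : ℝ) ^ K / (2 * (2 * k) * 2 ^ ℓ * ((2 * k) ^ 2) ^ K) with hx
  have hxpos : 0 < x := by rw [hx]; positivity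
  have hLx : (K : ℝ) * (Real.log q - Real.log ((2 * k) ^ 2)) - ℓ * Real.log 2 -
      Real.log (16 * k) = Real.log (x / 4) := by
    have hx4 : x / 4 = (q : ℝ) ^ K / ((16 * k) * 2 ^ ℓ * ((2 * k) ^ 2) ^ K) := by
      rw [hx]
      field_simp
      ring
    rw [hx4, Real.log_div (by positivity) (by positivity),
      Real.log_mul (x := 16 * (k : ℝ) * 2 ^ ℓ) (by positivity) (by positivity),
      Real.log_mul (x := 16 * (k : ℝ)) (y := 2 ^ ℓ) (by positivity) (by positivity),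
      Real.log_pow (q : ℝ) K, Real.log_pow (2 : ℝ) ℓ, Real.log_pow ((2 * (k : ℝ)) ^ 2) K]
    ring
  rw [hLx]
  by_cases hx4 : x / 4 ≤ 1
  · refine (Real.log_nonpos (by positivity) hx4).trans ?_
    exact Real.log_natCast_nonneg _
  · push Not at hx4
    obtain ⟨C, hC1, hC2⟩ := exists_code k q ℓ K ⌊x⌋₊ hk hq h3 (by
      have h4 : (⌊x⌋₊ : ℝ) ≤ x := Nat.floor_le hxpos.le
      have h5 : (2 * (2 * k) * 2 ^ ℓ * (⌊x⌋₊ * ((2 * k) ^ 2) ^ K) : ℝ) ≤ (q : ℝ) ^ K := by
        calc (2 * (2 * k) * 2 ^ ℓ * (⌊x⌋₊ * ((2 * k) ^ 2) ^ K) : ℝ)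
            ≤ 2 * (2 * k) * 2 ^ ℓ * (x * ((2 * k) ^ 2) ^ K) := by gcongr
          _ = (q : ℝ) ^ K := by
              rw [hx]
              field_simp
      exact_mod_cast h5)
    have h6 : C.card ≤ maxSeq q ℓ k := le_maxSeq (isSeqIPP_of_coll hC2 h1)
    have h7 : x / 4 ≤ maxSeq q ℓ k := by
      have h8 : x < ⌊x⌋₊ + 1 := Nat.lt_floor_add_one x
      have h9 : (⌊x⌋₊ : ℝ) ≤ 2 * C.card := by exact_mod_cast hC1
      have h10 : (C.card : ℝ) ≤ maxSeq q ℓ k := by exact_mod_cast h6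
      linarith
    exact Real.log_le_log (by positivity) h7

/-- lower bound for the rate over a large alphabet -/
theorem lower (k q : ℕ) (hk : 1 ≤ k) (hq : 2 ≤ q) :
    2 / ((k : ℝ) * (k + 1)) * (1 - Real.log (4 * k ^ 2) / Real.log q) -
      Real.log 2 / Real.log q ≤ liminf (fun ℓ => rate q ℓ k) atTop := by
  have hq1 : (1 : ℝ) < q := by exact_mod_cast hq
  have hq0 : (0 : ℝ) < q := by linarith
  have hkr : (0 : ℝ) < k := by exact_mod_cast hk
  have hlq : 0 < Real.log q := Real.log_pos hq1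
  have h42 : ((2 * k : ℝ)) ^ 2 = 4 * k ^ 2 := by ring
  by_cases hqk : (2 * k) ^ 2 ≤ q
  · set T : ℝ := (k : ℝ) * (k + 1) / 2 with hT
    have hTpos : 0 < T := by rw [hT]; positivity
    set A : ℝ := Real.log q - Real.log ((2 * k) ^ 2) with hA
    have hA0 : 0 ≤ A := by
      rw [hA, sub_nonneg]
      apply Real.log_le_log (by positivity)
      exact_mod_cast hqk
    -- floor bound
    have hfl : ∀ ℓ : ℕ, k ≤ ℓ → (ℓ : ℝ) / T - (k / T + 1) ≤
        (((ℓ - k) / (k * (k + 1) / 2) : ℕ) : ℝ) := by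
      intro ℓ hℓ
      have h1 : ((ℓ - k : ℕ) : ℝ) / ((k * (k + 1) / 2 : ℕ) : ℝ) <
          (((ℓ - k) / (k * (k + 1) / 2) : ℕ) : ℝ) + 1 := by
        have hTn : 0 < k * (k + 1) / 2 := tri_pos hk
        rw [div_lt_iff₀ (by exact_mod_cast hTn)]
        have h2 := Nat.lt_div_mul_add (a := ℓ - k) hTn
        have h3 : ((ℓ - k : ℕ) : ℝ) < (((ℓ - k) / (k * (k + 1) / 2) * (k * (k + 1) / 2) +
          k * (k + 1) / 2 : ℕ) : ℝ) := by exact_mod_cast h2
        push_cast at h3 ⊢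
        linarith
      rw [tri_real, Nat.cast_sub hℓ, ← hT, sub_div] at h1
      linarith
    have hf : Tendsto (fun ℓ : ℕ => (A / T - Real.log 2) / Real.log q -
        (((k / T + 1) * A + Real.log (16 * k)) / Real.log q) / (ℓ : ℝ)) atTop
        (𝓝 ((A / T - Real.log 2) / Real.log q - 0)) :=
      tendsto_const_nhds.sub (tendsto_const_nhds.div_atTop tendsto_natCast_atTop_atTop)
    have hfin : ((A / T - Real.log 2) / Real.log q - 0 : ℝ) =
        2 / ((k : ℝ) * (k + 1)) * (1 - Real.log (4 * k ^ 2) / Real.log q) -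
          Real.log 2 / Real.log q := by
      rw [hA, hT, h42]
      field_simp
      ring
    rw [← hfin]
    refine le_liminf hq hf ?_
    filter_upwards [eventually_ge_atTop (k + 2)] with ℓ hℓ
    have hℓr : (0 : ℝ) < ℓ := by
      have : 0 < ℓ := by omega
      exact_mod_cast this
    have h1 := log_lower k q ℓ hk hqk (by omega) (by omega)
    have h2 : ((ℓ : ℝ) / T - (k / T + 1)) * A ≤
        (((ℓ - k) / (k * (k + 1) / 2) : ℕ) : ℝ) * A :=
      mul_le_mul_of_nonneg_right (hfl ℓ (by omega)) hA0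
    have h3 : ((ℓ : ℝ) / T - (k / T + 1)) * A - ℓ * Real.log 2 - Real.log (16 * k) ≤
        Real.log (maxSeq q ℓ k) := by linarith
    have h4 : rate q ℓ k = Real.log (maxSeq q ℓ k) / (Real.log q * ℓ) := by
      unfold rate
      rw [Real.logb, div_div]
    rw [h4, le_div_iff₀ (by positivity)]
    refine le_trans (le_of_eq ?_) h3
    field_simp
    ring
  · push Not at hqk
    refine le_trans ?_ (le_liminf hq (tendsto_const_nhds (x := (0 : ℝ)))
      (Eventually.of_forall (fun ℓ => rate_nonneg q ℓ k hq)))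
    have h1 : Real.log q ≤ Real.log (4 * k ^ 2) := by
      apply Real.log_le_log hq0
      rw [← h42]
      exact_mod_cast hqk.le
    have h2 : 1 ≤ Real.log (4 * k ^ 2) / Real.log q := by
      rw [le_div_iff₀ hlq]; linarith
    have h3 : 0 ≤ 2 / ((k : ℝ) * (k + 1)) := by positivity
    have h4 : 0 ≤ Real.log 2 / Real.log q := div_nonneg (Real.log_nonneg (by norm_num)) hlq.le
    nlinarith

end Pool.Agent.TH403.IPP
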