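import Pool.Agent.H230R2.IPP.SeqRate

set_option autoImplicit false

/-!
Sequential codes with the identifiable parent property: an upper bound whose constant does not
depend on the length. The adversary only uses `k ^ 2` fixed intervals of rounds.
-/

namespace Pool.Agent.TH403.IPP

open Finset Pool.Agent.H230R2.Seq

variable {ℓ q : ℕ}

/-- The intervals of rounds used by the adversary. -/
def fam (ℓ k K : ℕ) : Finset (Finset (Fin ℓ)) :=
  (range k ×ˢ range k).image (fun pi => univ.filter (fun t : Fin ℓ =>
    st k K pi.1 + pi.2 * K ≤ t.val ∧ t.val < st k K pi.1 + (pi.2 + 1) * K))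

lemma mem_fam {k K p i : ℕ} (hp : p < k) (hi : i < k) :
    univ.filter (fun t : Fin ℓ => st k K p + i * K ≤ t.val ∧ t.val < st k K p + (i + 1) * K) ∈
      fam ℓ k K :=
  Finset.mem_image.2 ⟨(p, i), Finset.mem_product.2
    ⟨Finset.mem_range.2 hp, Finset.mem_range.2 hi⟩, rfl⟩

lemma fam_card (ℓ k K : ℕ) : (fam ℓ k K).card ≤ k * k := by
  refine Finset.card_image_le.trans ?_
  rw [Finset.card_product, Finset.card_range]

lemma card_of_mem_fam {k K : ℕ} {B : Finset (Fin ℓ)} (hB : B ∈ fam ℓ k K) : B.card ≤ K := by
  unfold fam at hB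
  rw [Finset.mem_image] at hB
  obtain ⟨⟨p, i⟩, _, rfl⟩ := hB
  have h2 : ((univ.filter (fun t : Fin ℓ => st k K p + i * K ≤ t.val ∧
      t.val < st k K p + (i + 1) * K)).map Fin.valEmbedding) ⊆ Finset.Ico (st k K p + i * K)
      (st k K p + (i + 1) * K) := by
    intro t ht
    rw [Finset.mem_map] at ht
    obtain ⟨t', ht', rfl⟩ := ht
    rw [Finset.mem_filter] at ht'
    rw [Finset.mem_Ico]
    exact ht'.2
  have h3 := Finset.card_le_card h2
  rw [Finset.card_map, Nat.card_Ico] at h3
  have h4 : (i + 1) * K = i * K + K := by ring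
  dsimp only
  omega

lemma exists_good' (C : Finset (Fin ℓ → Fin q)) (k K : ℕ) (hq : 1 ≤ q)
    (hC : k * k * (k * q ^ K) + k ≤ C.card) :
    ∃ G ⊆ C, G.card = k ∧ ∀ x ∈ G, ∀ B : Finset (Fin ℓ), B ∈ fam ℓ k K →
      k < (C.filter (fun y => ∀ j ∈ B, y j = x j)).card := by
  classical
  set Bad := (fam ℓ k K).biUnion (bad C k) with hBad
  have h1 : Bad.card ≤ k * k * (k * q ^ K) := by
    have h2 : Bad.card ≤ (fam ℓ k K).card * (k * q ^ K) := by
      apply Finset.card_biUnion_le_card_mul
      intro B hB
      exact (bad_card C k B).trans (Nat.mul_le_mul_left _ (Nat.pow_le_pow_right hq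
        (card_of_mem_fam hB)))
    exact h2.trans (Nat.mul_le_mul_right _ (fam_card ℓ k K))
  have h2 : k ≤ (C \ Bad).card := by
    have := Finset.le_card_sdiff Bad C
    omega
  obtain ⟨G, hG, hGk⟩ := Finset.exists_subset_card_eq h2
  refine ⟨G, hG.trans Finset.sdiff_subset, hGk, ?_⟩
  intro x hx B hB
  have hx' := hG hx
  rw [Finset.mem_sdiff] at hx'
  by_contra hcon
  push Not at hcon
  apply hx'.2
  rw [hBad, Finset.mem_biUnion]
  refine ⟨B, hB, ?_⟩
  unfold bad
  rw [Finset.mem_filter]
  exact ⟨hx'.1, by convert hcon⟩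

theorem not_isSeqIPP' {C : Finset (Fin ℓ → Fin q)} {k K : ℕ} (hk : 1 ≤ k) (hq : 1 ≤ q)
    (hℓ : ℓ ≤ K * (k * (k + 1) / 2) + k - 1) (hC : k * k * (k * q ^ K) + k ≤ C.card) :
    ¬ IsSeqIPP k C := by
  classical
  rintro ⟨A, hA⟩
  obtain ⟨G, hGC, hGk, hG⟩ := exists_good' C k K hq hC
  have eqv : Fin k ≃ G := (Finset.equivFinOfCardEq hGk).symm
  let x : ℕ → (Fin ℓ → Fin q) := fun r => if h : r < k then eqv ⟨r, h⟩ else eqv ⟨0, hk⟩
  have hxG : ∀ r, x r ∈ G := by
    intro r
    simp only [x]
    split_ifs
    · exact (eqv _).2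
    · exact (eqv _).2
  have hxinj : ∀ r s, r < k → s < k → x r = x s → r = s := by
    intro r s hr hs h
    simp only [x, hr, hs, dite_true] at h
    have := eqv.injective (Subtype.ext h)
    exact congrArg Fin.val this
  -- all words of `G` are `x r`
  set XX : Finset (Fin ℓ → Fin q) := (range k).image x with hXX
  have hXXC : XX ⊆ C := by
    intro c hc
    rw [hXX, Finset.mem_image] at hc
    obtain ⟨r, _, rfl⟩ := hc
    exact hGC (hxG r)
  have hXXk : XX.card = k := by
    rw [hXX, Finset.card_image_of_injOn, Finset.card_range]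
    intro r hr s hs h
    exact hxinj r s (Finset.mem_range.1 (Finset.mem_coe.1 hr))
      (Finset.mem_range.1 (Finset.mem_coe.1 hs)) h
  let pre : ℕ → Finset (Fin ℓ → Fin q) := fun p => (range p).image x
  have hpre : ∀ p ≤ k, pre p ⊆ XX := fun p hp =>
    Finset.image_subset_image (Finset.range_subset_range.2 hp)
  have hnot : ∀ p < k, x p ∉ pre p := by
    intro p hp h
    simp only [pre] at h
    rw [Finset.mem_image] at h
    obtain ⟨r, hr, h1⟩ := h
    rw [Finset.mem_range] at hr
    have := hxinj r p (by omega) hp h1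
    omega
  -- words agreeing with `x p` on `B`
  have hY : ∀ p, ∀ B : Finset (Fin ℓ), B ∈ fam ℓ k K → ∃ y ∈ C, y ∉ XX ∧ ∀ j ∈ B, y j = x p j := by
    intro p B hB
    have h1 := hG (x p) (hxG p) B hB
    by_contra hcon
    push Not at hcon
    have h2 : C.filter (fun y => ∀ j ∈ B, y j = x p j) ⊆ XX := by
      intro y hy
      rw [Finset.mem_filter] at hy
      by_contra hyX
      obtain ⟨j, hj, hne⟩ := hcon y hy.1 hyX
      exact hne (hy.2 j hj)
    have := Finset.card_le_card h2
    omega
  have : Nonempty (Fin ℓ → Fin q) := ⟨x 0⟩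
  choose! y hyC hyX hyB using hY
  let d : Fin ℓ → Fin q := fun j => x (blk k K j) j
  have hblk : ∀ j, blk k K j < k := fun j => by have := blk_le k K j; omega
  have claim : ∀ j ≤ ℓ, ident A d j ⊆ pre (blk k K j) := by
    intro j
    induction j using Nat.strong_induction_on with
    | _ j ih =>
    intro hj
    set p := blk k K j with hp
    have hpk : p < k := hblk j
    -- the two hypotheses
    have hstep : ∀ t : Fin ℓ, t.val < j → x (blk k K t) ∉ ident A d t := by
      intro t ht h
      exact hnot _ (hblk t) (ih t ht (by omega) h)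
    have hidXX : ∀ t : ℕ, t < j → ident A d t ⊆ XX := fun t ht =>
      (ih t ht (by omega)).trans (hpre _ (hblk t).le)
    -- first: XX
    have h1 : ident A d j ⊆ XX := by
      obtain ⟨d', hd1, hd2⟩ := exists_ext A XX d j (by
        intro t ht
        refine ⟨x (blk k K t), ?_, rfl⟩
        rw [Finset.mem_sdiff]
        exact ⟨Finset.mem_image_of_mem _ (Finset.mem_range.2 (hblk t)), hstep t ht⟩)
      obtain ⟨i, _, hi⟩ := hA XX hXXC hXXk.le d' hd2
      have hcongr : ∀ i' ≤ j, ident A d' i' = ident A d i' := fun i' hi' =>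
        ident_congr A d' d i' (fun t ht => hd1 t (by omega))
      by_cases hij : i < j
      · exfalso
        rw [hcongr i hij.le] at hi
        have h2 := ih i hij (by omega)
        rw [hi] at h2
        have h3 : x (k - 1) ∈ pre (blk k K i) := h2 (Finset.mem_image_of_mem _ (by
          rw [Finset.mem_range]; omega))
        simp only [pre] at h3
        rw [Finset.mem_image] at h3
        obtain ⟨r, hr, h4⟩ := h3
        rw [Finset.mem_range] at hr
        have h5 := blk_le k K i
        have := hxinj r (k - 1) (by omega) (by omega) h4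
        omega
      · rw [← hcongr j le_rfl, ← hi]
        exact ident_mono A d' (by omega)
    -- second
    let B : ℕ → Finset (Fin ℓ) := fun i =>
      univ.filter (fun t : Fin ℓ => st k K p + i * K ≤ t.val ∧ t.val < st k K p + (i + 1) * K)
    have hBK : ∀ i, i < k → B i ∈ fam ℓ k K := by
      intro i hi
      exact mem_fam hpk hi
    set X' : Finset (Fin ℓ → Fin q) := pre p ∪ (range (k - p)).image (fun i => y p (B i)) with hX'
    have hX'C : X' ⊆ C := by
      apply Finset.union_subset ((hpre p hpk.le).trans hXXC)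
      intro c hc
      rw [Finset.mem_image] at hc
      obtain ⟨i, hik, rfl⟩ := hc
      rw [Finset.mem_range] at hik
      exact hyC p (B i) (hBK i (by omega))
    have hX'k : X'.card ≤ k := by
      refine (Finset.card_union_le _ _).trans ?_
      have h2 : (pre p).card ≤ p := by
        have := Finset.card_image_le (s := range p) (f := x)
        rwa [Finset.card_range] at this
      have h3 : ((range (k - p)).image (fun i => y p (B i))).card ≤ k - p := by
        have := Finset.card_image_le (s := range (k - p)) (f := fun i => y p (B i))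
        rwa [Finset.card_range] at this
      omega
    have hy0 : y p (B 0) ∈ X' := by
      apply Finset.mem_union_right
      exact Finset.mem_image.2 ⟨0, Finset.mem_range.2 (by omega), rfl⟩
    have h2 : ident A d j ⊆ X' := by
      obtain ⟨d', hd1, hd2⟩ := exists_ext A X' d j (by
        intro t ht
        by_cases hbt : blk k K t = p
        · -- in the current block
          have h3 := lt_of_blk k K j ℓ hk hj hℓ
          rw [← hp] at h3
          have h4 := st_blk k K t
          rw [hbt] at h4
          have hKpos : 0 < K := by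
            rcases Nat.eq_zero_or_pos K with h0 | h0
            · rw [h0, mul_zero] at h3
              rw [h0] at h4
              omega
            · exact h0
          set i := (t.val - st k K p) / K with hi
          have hik : i < k - p := by
            rw [hi, Nat.div_lt_iff_lt_mul hKpos]
            omega
          have htB : t ∈ B i := by
            simp only [B]
            rw [Finset.mem_filter]
            have h5 := Nat.div_add_mod (t.val - st k K p) K
            have h6 := Nat.mod_lt (t.val - st k K p) hKpos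
            rw [← hi] at h5
            have h7 : K * i = i * K := Nat.mul_comm _ _
            have h8 : (i + 1) * K = i * K + K := by ring
            refine ⟨Finset.mem_univ _, by omega, by omega⟩
          refine ⟨y p (B i), ?_, ?_⟩
          · rw [Finset.mem_sdiff]
            refine ⟨Finset.mem_union_right _ (Finset.mem_image.2 ⟨i, Finset.mem_range.2 hik, rfl⟩),
              ?_⟩
            intro h9
            exact hyX p (B i) (hBK i (by omega)) (hidXX t ht h9)
          · rw [hyB p (B i) (hBK i (by omega)) t htB]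
            simp only [d]
            rw [hbt]
        · have h3 : blk k K t ≤ p := blk_mono k K ht.le
          refine ⟨x (blk k K t), ?_, rfl⟩
          rw [Finset.mem_sdiff]
          exact ⟨Finset.mem_union_left _ (Finset.mem_image_of_mem _
            (Finset.mem_range.2 (by omega))), hstep t ht⟩)
      obtain ⟨i, _, hi⟩ := hA X' hX'C hX'k d' hd2
      have hcongr : ∀ i' ≤ j, ident A d' i' = ident A d i' := fun i' hi' =>
        ident_congr A d' d i' (fun t ht => hd1 t (by omega))
      by_cases hij : i < j
      · exfalso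
        rw [hcongr i hij.le] at hi
        have h2 := hidXX i hij
        rw [hi] at h2
        exact hyX p (B 0) (hBK 0 (by omega)) (h2 hy0)
      · rw [← hcongr j le_rfl, ← hi]
        exact ident_mono A d' (by omega)
    intro c hc
    have h3 := h1 hc
    have h4 := h2 hc
    rw [hX', Finset.mem_union] at h4
    rcases h4 with h4 | h4
    · exact h4
    · rw [Finset.mem_image] at h4
      obtain ⟨i, hik, rfl⟩ := h4
      rw [Finset.mem_range] at hik
      exact absurd h3 (hyX p (B i) (hBK i (by omega)))
  -- conclusion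
  have hleg : Legit A XX d := by
    intro t _
    refine ⟨x (blk k K t), ?_, rfl⟩
    rw [Finset.mem_sdiff]
    refine ⟨Finset.mem_image_of_mem _ (Finset.mem_range.2 (hblk t)), ?_⟩
    intro h
    exact hnot _ (hblk t) (claim t t.2.le h)
  obtain ⟨i, hi, hid⟩ := hA XX hXXC hXXk.le d hleg
  have h2 := claim i hi
  rw [hid] at h2
  have h3 : x (k - 1) ∈ pre (blk k K i) := h2 (Finset.mem_image_of_mem _ (by
    rw [Finset.mem_range]; omega))
  simp only [pre] at h3
  rw [Finset.mem_image] at h3
  obtain ⟨r, hr, h4⟩ := h3
  rw [Finset.mem_range] at hr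
  have h5 := blk_le k K i
  have := hxinj r (k - 1) (by omega) (by omega) h4
  omega


/-- `N(q,ℓ,k) ≤ (k³ + k) q ^ t` with `t = tstar ℓ k`. -/
lemma maxSeq_upper' {q ℓ k : ℕ} (hk : 1 ≤ k) (hq : 1 ≤ q) :
    maxSeq q ℓ k ≤ (k * k * k + k) * q ^ tstar ℓ k := by
  obtain ⟨C, hC, hC'⟩ := exists_max q ℓ k
  by_contra hcon
  push Not at hcon
  refine not_isSeqIPP' hk hq (upper_tstar hk) ?_ hC'
  rw [hC]
  have h1 : 1 ≤ q ^ tstar ℓ k := Nat.one_le_pow _ _ hq
  have h3 : k ≤ k * q ^ tstar ℓ k := Nat.le_mul_of_pos_right k h1
  calc k * k * (k * q ^ tstar ℓ k) + k ≤ k * k * (k * q ^ tstar ℓ k) + k * q ^ tstar ℓ k := by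
        omega
    _ = (k * k * k + k) * q ^ tstar ℓ k := by ring
    _ ≤ _ := hcon.le

end Pool.Agent.TH403.IPP
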